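import Pool.Agent.H31.WijC

open Pool.Agent.H31.Wij

universe u

theorem Pool.Agent.Results.MP_091b66_gt.Main.result :
    (∀ (X : Type u) [MetricSpace X], Pseudocomplete X → Pseudocomplete (CL X)) ∧
    (∀ (X : Type u) [MetricSpace X], Subcompact X → Subcompact (CL X)) ∧
    (∃ (X : Type) (_ : MetricSpace X), BaseCompact X ∧ ¬ BaseCompact (CL X)) :=
  ⟨fun _ _ h => partA h, fun _ _ h => partB h,
    Pt, inferInstance, baseCompact_pt, not_baseCompact_cl⟩
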